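import Pool.Agent.Y834.RV.Ball

/-!
The range `n ≥ 2 (r - k) + 1` is sharp: for `r - 2 k < n ≤ 2 (r - k)`, `k ≥ 1`, the alternating
oriented matroid of rank `r` has more than `2 * ∑_{i < r - 2 k} (n - 1).choose i` reorientations
which are `k`-neighborly.
-/

set_option autoImplicit false

namespace Pool.Agent.Y834.RV

open Pool.Agent.H800R3.OM Pool.Agent.H800R3.Roud

variable {n : ℕ}

/-- A pattern with fewer than `r` sign changes is a tope of the alternating oriented matroid. -/
lemma pat_tope {r : ℕ} (b : Bool) {D : Finset ℕ} (hD : D.card + 1 ≤ r) :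
    Tope (alternating r n) (pat n b D) := by
  obtain ⟨X, hX, -, h1⟩ := alt_covector (n := n) (r := r) (k := 0) (b := b) (D := D) (by omega)
    ∅ (by simp)
  have : X = sv (pat n b D) := by
    funext e
    exact h1 e (Finset.notMem_empty e)
  show sv (pat n b D) ∈ alternating r n
  rw [← this]; exact hX

/-- Patterns with at most `r - 1 - 2 k` sign changes are centres of balls of topes. -/
lemma pat_ball {r k : ℕ} (b : Bool) {D : Finset ℕ} (hD : D.card + 2 * k + 1 ≤ r) :
    Ball (Tope (alternating r n)) k (pat n b D) := by
  refine ball_of_kneighborly (isOM_alternating r n) _ ⟨?_, ?_⟩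
  · have h := pat_tope (n := n) (r := r) b (D := D) (by omega)
    refine ⟨sv (pat n b D), h, ?_⟩
    funext e
    unfold flipOn sv
    by_cases he : e ∈ pat n b D <;> simp [he]
  · intro F hF
    obtain ⟨X, hX, h0, h1⟩ := alt_covector (n := n) (r := r) (k := k) (b := b) (D := D) hD F hF
    refine ⟨flipOn (pat n b D) X, ⟨X, hX, rfl⟩, ?_, ?_⟩
    · intro e he
      unfold flipOn
      rw [h0 e he]; simp
    · intro e he
      unfold flipOn
      rw [h1 e he]
      unfold sv
      by_cases h : e ∈ pat n b D <;> simp [h]

/-- the even numbers below `2 m` -/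
def evens (m : ℕ) : Finset ℕ := (Finset.range m).image (fun i => 2 * i)

lemma mem_evens {m i : ℕ} : i ∈ evens m ↔ i % 2 = 0 ∧ i < 2 * m := by
  unfold evens
  rw [Finset.mem_image]
  constructor
  · rintro ⟨a, ha, rfl⟩
    rw [Finset.mem_range] at ha
    omega
  · rintro ⟨h1, h2⟩
    exact ⟨i / 2, by rw [Finset.mem_range]; omega, by omega⟩

lemma card_evens (m : ℕ) : (evens m).card = m := by
  unfold evens
  rw [Finset.card_image_of_injective _ (fun a b h => by simpa using h), Finset.card_range]

/-- membership of the natural number `i` -/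
def InT (T : Finset (Fin n)) (i : ℕ) : Prop := ∃ h : i < n, (⟨i, h⟩ : Fin n) ∈ T

open Classical in
/-- the set of sign changes -/
noncomputable def chg (T : Finset (Fin n)) : Finset ℕ :=
  (Finset.range (n - 1)).filter fun i => ¬ (InT T i ↔ InT T (i + 1))

lemma mem_chg {T : Finset (Fin n)} {i : ℕ} :
    i ∈ chg T ↔ i < n - 1 ∧ ¬ (InT T i ↔ InT T (i + 1)) := by
  simp only [chg, Finset.mem_filter, Finset.mem_range]

lemma chg_subset (T : Finset (Fin n)) : chg T ⊆ Finset.range (n - 1) := by
  intro i hi
  rw [mem_chg] at hi
  exact Finset.mem_range.2 hi.1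

lemma card_step (E : Finset ℕ) (i : ℕ) : (E.filter (fun x => x < i + 1)).card =
    (E.filter (fun x => x < i)).card + (if i ∈ E then 1 else 0) := by
  by_cases hi : i ∈ E
  · have h1 : E.filter (fun x => x < i + 1) = insert i (E.filter (fun x => x < i)) := by
      ext x
      simp only [Finset.mem_filter, Finset.mem_insert]
      constructor
      · rintro ⟨h1, h2⟩
        by_cases hx : x = i
        · exact Or.inl hx
        · exact Or.inr ⟨h1, by omega⟩
      · rintro (rfl | ⟨h1, h2⟩)
        · exact ⟨hi, by omega⟩
        · exact ⟨h1, by omega⟩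
    rw [h1, Finset.card_insert_of_notMem (by simp), if_pos hi]
  · have h1 : E.filter (fun x => x < i + 1) = E.filter (fun x => x < i) := by
      ext x
      simp only [Finset.mem_filter]
      constructor
      · rintro ⟨h1, h2⟩
        have : x ≠ i := fun h => hi (h ▸ h1)
        exact ⟨h1, by omega⟩
      · rintro ⟨h1, h2⟩
        exact ⟨h1, by omega⟩
    rw [h1, if_neg hi, add_zero]

/-- every set is the pattern of its sign changes -/
lemma exists_pat (T : Finset (Fin n)) : ∃ b : Bool, T = pat n b (chg T) := by
  classical
  refine ⟨decide (InT T 0), ?_⟩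
  have key : ∀ i : ℕ, i < n →
      (Odd (((chg T).filter (fun x => x < i)).card + (decide (InT T 0)).toNat) ↔ InT T i) := by
    intro i
    induction i with
    | zero =>
      intro _
      by_cases h : InT T 0 <;> simp [h]
    | succ i ih =>
      intro hi
      have h1 := ih (by omega)
      rw [card_step]
      have h2 : i ∈ chg T ↔ ¬ (InT T i ↔ InT T (i + 1)) := by
        rw [mem_chg]
        constructor
        · exact fun h => h.2
        · exact fun h => ⟨by omega, h⟩
      rw [Nat.odd_iff] at h1 ⊢
      by_cases h3 : i ∈ chg T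
      · rw [if_pos h3]
        have h4 := h2.1 h3
        by_cases h5 : InT T i
        · have h6 : ¬ InT T (i + 1) := fun h => h4 (by tauto)
          have h7 := h1.2 h5
          constructor
          · intro h; omega
          · intro h; exact absurd h h6
        · have h6 : InT T (i + 1) := by
            by_contra h
            exact h4 (by tauto)
          have h7 : ¬ ((((chg T).filter (fun x => x < i)).card + (decide (InT T 0)).toNat) % 2 = 1) :=
            fun h => h5 (h1.1 h)
          constructor
          · intro _; exact h6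
          · intro _; omega
      · rw [if_neg h3, add_zero]
        have h4 : InT T i ↔ InT T (i + 1) := by
          by_contra h
          exact h3 (h2.2 h)
        rw [← h4]
        exact h1
  ext j
  rw [mem_pat, key j j.2]
  unfold InT
  constructor
  · intro h; exact ⟨j.2, h⟩
  · rintro ⟨_, h⟩; exact h

lemma inT_symmDiff (T E : Finset (Fin n)) (i : ℕ) :
    InT (symmDiff T E) i ↔ ¬ (InT T i ↔ InT E i) := by
  unfold InT
  by_cases h : i < n
  · simp only [h, exists_true_left, Finset.mem_symmDiff]
    tauto
  · simp [h]

/-- If no two consecutive positions are unchanged, each flip creates at most one change. -/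
lemma card_chg_symmDiff (T E : Finset (Fin n))
    (hT : ∀ i, i + 1 < n - 1 → i ∈ chg T ∨ i + 1 ∈ chg T) :
    (chg (symmDiff T E)).card ≤ (chg T).card + E.card := by
  classical
  have hsub : chg (symmDiff T E) ⊆
      chg T ∪ (chg E \ chg T) := by
    intro i hi
    rw [mem_chg, inT_symmDiff, inT_symmDiff] at hi
    rw [Finset.mem_union, Finset.mem_sdiff, mem_chg, mem_chg]
    have := hi.1
    have := hi.2
    tauto
  refine (Finset.card_le_card hsub).trans ((Finset.card_union_le _ _).trans ?_)
  refine Nat.add_le_add_left ?_ _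
  have h1 : (chg E \ chg T).card ≤ (E.image fun e : Fin n => (e : ℕ)).card := by
    refine Finset.card_le_card_of_injOn (fun i => if InT E i then i else i + 1) ?_ ?_
    · intro i hi
      have hi' := (Finset.mem_sdiff.1 (Finset.mem_coe.1 hi)).1
      rw [mem_chg] at hi'
      rw [Finset.mem_coe, Finset.mem_image]
      by_cases h : InT E i
      · obtain ⟨h2, h3⟩ := h
        exact ⟨⟨i, h2⟩, h3, by simp only; rw [if_pos ⟨h2, h3⟩]⟩
      · have h4 : InT E (i + 1) := by
          by_contra h5
          exact hi'.2 (by tauto)
        obtain ⟨h2, h3⟩ := h4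
        exact ⟨⟨i + 1, h2⟩, h3, by simp only; rw [if_neg h]⟩
    · intro i hi i' hi' heq
      have hi1 := Finset.mem_sdiff.1 (Finset.mem_coe.1 hi)
      have hi2 := Finset.mem_sdiff.1 (Finset.mem_coe.1 hi')
      have hr1 := (mem_chg.1 hi1.1).1
      have hr2 := (mem_chg.1 hi2.1).1
      by_contra hne
      simp only at heq
      split_ifs at heq with h3 h4 h4
      · exact hne heq
      · subst heq
        rcases hT i' (by omega) with h | h
        · exact hi2.2 h
        · exact hi1.2 h
      · subst heq
        rcases hT i (by omega) with h | h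
        · exact hi1.2 h
        · exact hi2.2 h
      · omega
  exact h1.trans Finset.card_image_le

/-- A further centre of a ball of topes. -/
lemma extra_ball {r k : ℕ} (hn0 : 0 < n) {D : Finset ℕ} (hD : D ⊆ Finset.range (n - 1))
    (hgap : ∀ i, i + 1 < n - 1 → i ∈ D ∨ i + 1 ∈ D) (hc : D.card + k + 1 ≤ r) :
    Ball (Tope (alternating r n)) k (pat n false D) := by
  obtain ⟨b, hb⟩ := exists_pat (pat n false D)
  have h1 : chg (pat n false D) = D := ((pat_inj hn0 hD (chg_subset _) hb).2).symm
  intro E hE
  have h2 := card_chg_symmDiff (pat n false D) E (by rw [h1]; exact hgap)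
  rw [h1] at h2
  obtain ⟨b', hb'⟩ := exists_pat (symmDiff (pat n false D) E)
  rw [hb']
  exact pat_tope b' (by omega)

/-- Outside the range `n ≥ 2 (r - k) + 1` (and `n > r - 2 k`) the number is larger. -/
theorem strict {r k : ℕ} (hk1 : 1 ≤ k) (hk : 2 * k + 1 ≤ r) (hn1 : r - 2 * k < n)
    (hn2 : n ≤ 2 * (r - k)) :
    2 * ∑ i ∈ Finset.range (r - 2 * k), (n - 1).choose i <
      numNeighborly (alternating r n) k := by
  classical
  have hn0 : 0 < n := by omega
  set U : Finset (Finset ℕ) := (Finset.range (n - 1)).powerset.filter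
    (fun W => W.card < r - 2 * k) with hU
  have hUcard : U.card = ∑ i ∈ Finset.range (r - 2 * k), (n - 1).choose i := by
    have h1 : U = (Finset.range (r - 2 * k)).biUnion
        (fun i => (Finset.range (n - 1)).powersetCard i) := by
      ext W
      simp only [hU, Finset.mem_filter, Finset.mem_powerset, Finset.mem_biUnion, Finset.mem_range,
        Finset.mem_powersetCard]
      constructor
      · rintro ⟨h1, h2⟩; exact ⟨W.card, h2, h1, rfl⟩
      · rintro ⟨i, hi, h1, h2⟩; exact ⟨h1, by omega⟩
    rw [h1, Finset.card_biUnion]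
    · refine Finset.sum_congr rfl fun i _ => ?_
      rw [Finset.card_powersetCard, Finset.card_range]
    · intro i _ j _ hij
      rw [Function.onFun, Finset.disjoint_left]
      intro W h2 h3
      rw [Finset.mem_powersetCard] at h2 h3
      exact hij (h2.2.symm.trans h3.2)
  -- the extra pattern
  set q : ℕ := n - (r - k) with hq
  set D : Finset ℕ := Finset.range (n - 1) \ evens q with hD
  have hsub : evens q ⊆ Finset.range (n - 1) := by
    intro x hx
    have := mem_evens.1 hx
    rw [Finset.mem_range]
    omega
  have hDcard : D.card = n - 1 - q := by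
    rw [hD, Finset.card_sdiff_of_subset hsub, Finset.card_range, card_evens]
  have hDr : D ⊆ Finset.range (n - 1) := Finset.sdiff_subset
  have hgap : ∀ i, i + 1 < n - 1 → i ∈ D ∨ i + 1 ∈ D := by
    intro i hi
    simp only [hD, Finset.mem_sdiff, Finset.mem_range, mem_evens]
    rcases Nat.mod_two_eq_zero_or_one i with h | h
    · right; omega
    · left; omega
  set V0 : Finset (Bool × Finset ℕ) := Finset.univ ×ˢ U with hV0
  have hV0card : V0.card = 2 * ∑ i ∈ Finset.range (r - 2 * k), (n - 1).choose i := by
    rw [hV0, Finset.card_product, hUcard]; simp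
  have hnot : (false, D) ∉ V0 := by
    intro h
    simp only [hV0, Finset.mem_product, hU, Finset.mem_filter] at h
    have := h.2.2
    rw [hDcard] at this
    omega
  set V : Finset (Bool × Finset ℕ) := insert (false, D) V0 with hV
  have hVcard : V.card = V0.card + 1 := Finset.card_insert_of_notMem hnot
  have hVD : ∀ q ∈ V, q.2 ⊆ Finset.range (n - 1) := by
    intro q hq
    rw [hV, Finset.mem_insert] at hq
    rcases hq with rfl | hq
    · exact hDr
    · simp only [hV0, Finset.mem_product, hU, Finset.mem_filter, Finset.mem_powerset] at hq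
      exact hq.2.1
  have hinj : Set.InjOn (fun q : Bool × Finset ℕ => pat n q.1 q.2) V := by
    rintro ⟨b, D⟩ h1 ⟨b', D'⟩ h2 h
    obtain ⟨h3, h4⟩ := pat_inj hn0 (hVD _ (Finset.mem_coe.1 h1)) (hVD _ (Finset.mem_coe.1 h2)) h
    have h3' : b = b' := h3
    have h4' : D = D' := h4
    rw [h3', h4']
  have hle : V.card ≤ numNeighborly (alternating r n) k := by
    rw [numNeighborly_eq (isOM_alternating _ _), ← Finset.card_image_of_injOn hinj,
      ← Set.ncard_coe_finset]
    apply Set.ncard_le_ncard
    · intro A hA
      rw [Finset.mem_coe, Finset.mem_image] at hA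
      obtain ⟨q, hq, rfl⟩ := hA
      rw [hV, Finset.mem_insert] at hq
      rcases hq with rfl | hq
      · exact extra_ball hn0 hDr hgap (by rw [hDcard]; omega)
      · refine pat_ball q.1 ?_
        simp only [hV0, Finset.mem_product, hU, Finset.mem_filter] at hq
        have := hq.2.2
        omega
    · exact Set.toFinite _
  omega

/-- For `n ≤ r - 2 k` every reorientation is `k`-neighborly, and the formula holds trivially. -/
theorem small {r k : ℕ} (hn0 : 0 < n) (hk : 2 * k + 1 ≤ r) (hn : n ≤ r - 2 * k) :
    numNeighborly (alternating r n) k =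
      2 * ∑ i ∈ Finset.range (r - 2 * k), (n - 1).choose i := by
  refine le_antisymm ?_ (alt_ge n r k hn0 hk)
  have h1 : numNeighborly (alternating r n) k ≤ 2 ^ n := by
    unfold numNeighborly
    refine (Set.ncard_le_ncard (Set.subset_univ _) Set.finite_univ).trans ?_
    rw [Set.ncard_univ, Nat.card_eq_fintype_card, Fintype.card_finset, Fintype.card_fin]
  refine h1.trans ?_
  have h2 : ∑ i ∈ Finset.range (n - 1 + 1), (n - 1).choose i = 2 ^ (n - 1) :=
    Nat.sum_range_choose (n - 1)
  have h3 : 2 ^ n = 2 * 2 ^ (n - 1) := by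
    rw [← pow_succ', Nat.sub_add_cancel hn0]
  rw [h3, ← h2]
  refine Nat.mul_le_mul_left 2 (Finset.sum_le_sum_of_subset ?_)
  intro i hi
  rw [Finset.mem_range] at hi ⊢
  omega

end Pool.Agent.Y834.RV
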