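import Pool.Agent.Y834.RV.Real

/-!
The `k`-neighborly reorientations of an oriented matroid are exactly the centres of the Hamming
balls of radius `k` which consist of topes.
-/

set_option autoImplicit false

namespace Pool.Agent.Y834.RV

open Pool.Agent.H800R3.OM Pool.Agent.H800R3.Roud

variable {n : ℕ}

lemma sv_symmDiff_insert {A E : Finset (Fin n)} {f g : Fin n} (h : g ≠ f) :
    sv (symmDiff A (insert f E)) g = sv (symmDiff A E) g := by
  unfold sv
  simp [Finset.mem_symmDiff, h]

lemma sv_symmDiff_insert_self {A E : Finset (Fin n)} {f : Fin n} (h : f ∉ E) :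
    sv (symmDiff A E) f = - sv (symmDiff A (insert f E)) f := by
  unfold sv
  by_cases hA : f ∈ A <;> simp [Finset.mem_symmDiff, h, hA]

/-- Repeated elimination inside a ball of topes. -/
lemma face_of_ball {L : Set (SVec n)} (hL : IsOM L) (A H : Finset (Fin n))
    (hb : ∀ E ⊆ H, sv (symmDiff A E) ∈ L) (F : Finset (Fin n)) :
    F ⊆ H → ∀ E ⊆ H, Disjoint F E →
      ∃ X ∈ L, (∀ e ∈ F, X e = 0) ∧ ∀ e, e ∉ F → X e = sv (symmDiff A E) e := by
  classical
  induction F using Finset.induction_on with
  | empty =>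
    intro _ E hE _
    exact ⟨sv (symmDiff A E), hb E hE, by simp, fun e _ => rfl⟩
  | insert f F hf ih =>
    intro hFH E hE hdis
    have hfH : f ∈ H := hFH (Finset.mem_insert_self f F)
    have hFH' : F ⊆ H := fun x hx => hFH (Finset.mem_insert_of_mem hx)
    have hfE : f ∉ E := Finset.disjoint_left.1 hdis (Finset.mem_insert_self f F)
    have hdis' : Disjoint F E := Finset.disjoint_left.2 fun x hx =>
      Finset.disjoint_left.1 hdis (Finset.mem_insert_of_mem hx)
    obtain ⟨X1, h1L, h1F, h1⟩ := ih hFH' E hE hdis'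
    obtain ⟨X2, h2L, h2F, h2⟩ := ih hFH' (insert f E)
      (Finset.insert_subset hfH hE) (by
        rw [Finset.disjoint_insert_right]
        exact ⟨hf, hdis'⟩)
    have e1 : X1 f = sv (symmDiff A E) f := h1 f hf
    have e2 : X2 f = sv (symmDiff A (insert f E)) f := h2 f hf
    have hsep : Separates X1 X2 f := by
      refine ⟨by rw [e1]; exact sv_ne_zero _ _, ?_⟩
      rw [e1, e2]
      exact sv_symmDiff_insert_self hfE
    obtain ⟨W, hWL, hWf, hW⟩ := hL.elim X1 h1L X2 h2L f hsep
    have hnsF : ∀ g ∈ F, ¬ Separates X1 X2 g := fun g hg hs => hs.1 (h1F g hg)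
    have hagree : ∀ g, g ∉ insert f F → X1 g = X2 g := by
      intro g hg
      rw [Finset.mem_insert, not_or] at hg
      rw [h1 g hg.2, h2 g hg.2, sv_symmDiff_insert hg.1]
    have hns : ∀ g, g ∉ insert f F → ¬ Separates X1 X2 g := by
      intro g hg hs
      obtain ⟨h3, h4⟩ := hs
      rw [← hagree g hg] at h4
      revert h3 h4
      generalize X1 g = a
      revert a; decide
    refine ⟨W, hWL, ?_, ?_⟩
    · intro g hg
      rcases Finset.mem_insert.1 hg with rfl | hg
      · exact hWf
      · rw [hW g (hnsF g hg)]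
        unfold comp
        rw [if_pos (h1F g hg), h2F g hg]
    · intro g hg
      rw [hW g (hns g hg)]
      have hg' := hg
      rw [Finset.mem_insert, not_or] at hg'
      have h3 := h1 g hg'.2
      unfold comp
      rw [if_neg (by rw [h3]; exact sv_ne_zero _ _), h3]

/-- The converse of `ball_of_kneighborly`. -/
theorem kneighborly_of_ball {L : Set (SVec n)} (hL : IsOM L) {k : ℕ} (A : Finset (Fin n))
    (h : Ball (Tope L) k A) : KNeighborly (reorient A L) k := by
  have flip_sv : ∀ (X : SVec n) (e : Fin n), X e = sv A e → flipOn A X e = 1 := by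
    intro X e hX
    unfold flipOn
    rw [hX]
    unfold sv
    by_cases he : e ∈ A <;> simp [he]
  constructor
  · have h0 : sv A ∈ L := by
      have := h ∅ (by simp)
      have h2 : symmDiff A (∅ : Finset (Fin n)) = A := symmDiff_bot A
      rw [h2] at this
      exact this
    exact ⟨sv A, h0, by funext e; exact (flip_sv (sv A) e rfl).symm⟩
  · intro F hF
    obtain ⟨X, hX, hX0, hX1⟩ := face_of_ball hL A F
      (fun E hE => h E ((Finset.card_le_card hE).trans hF)) F (Finset.Subset.refl F) ∅
      (Finset.empty_subset _) (Finset.disjoint_empty_right F)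
    have h2 : symmDiff A (∅ : Finset (Fin n)) = A := symmDiff_bot A
    refine ⟨flipOn A X, ⟨X, hX, rfl⟩, ?_, ?_⟩
    · intro e he
      unfold flipOn
      rw [hX0 e he]
      simp
    · intro e he
      apply flip_sv
      rw [hX1 e he, h2]

theorem kneighborly_iff {L : Set (SVec n)} (hL : IsOM L) (k : ℕ) (A : Finset (Fin n)) :
    KNeighborly (reorient A L) k ↔ Ball (Tope L) k A :=
  ⟨ball_of_kneighborly hL A, kneighborly_of_ball hL A⟩

theorem numNeighborly_eq {L : Set (SVec n)} (hL : IsOM L) (k : ℕ) :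
    numNeighborly L k = {A : Finset (Fin n) | Ball (Tope L) k A}.ncard := by
  unfold numNeighborly
  congr 1
  ext A
  exact kneighborly_iff hL k A

/-- `S` cuts out every subset of `Y`. -/
def Shatters (S : Set (Finset (Fin n))) (Y : Finset (Fin n)) : Prop :=
  ∀ p ⊆ Y, ∃ T ∈ S, T ∩ Y = p

/-- The sets all of whose modifications in at most `k` elements belong to `S`. -/
def centres (S : Set (Finset (Fin n))) (k : ℕ) : Set (Finset (Fin n)) :=
  {T | ∀ E : Finset (Fin n), E.card ≤ k → symmDiff T E ∈ S}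

/-- The negative parts of the topes. -/
def topes (L : Set (SVec n)) : Set (Finset (Fin n)) :=
  {T | (fun e : Fin n => if e ∈ T then (-1 : SignType) else 1) ∈ L}

lemma notShatter_of_not {S : Set (Finset (Fin n))} {Y : Finset (Fin n)} (h : ¬ Shatters S Y) :
    NotShatter (fun T => T ∈ S) Y := by
  unfold Shatters at h
  push Not at h
  obtain ⟨p, hp, hpT⟩ := h
  refine ⟨p, fun T hT => ?_⟩
  by_contra hcon
  push Not at hcon
  apply hpT T hT
  ext y
  rw [Finset.mem_inter]
  constructor
  · rintro ⟨h1, h2⟩; exact (hcon y h2).1 h1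
  · intro h1; exact ⟨(hcon y (hp h1)).2 h1, hp h1⟩

lemma not_shatters {S : Finset (Fin n) → Prop} {Y : Finset (Fin n)} (h : NotShatter S Y) :
    ¬ Shatters {T | S T} Y := by
  rintro hs
  obtain ⟨p, hp⟩ := h
  obtain ⟨T, hT, hTp⟩ := hs (p ∩ Y) Finset.inter_subset_right
  obtain ⟨y, hy, hne⟩ := hp T hT
  apply hne
  have h1 : y ∈ T ∩ Y ↔ y ∈ p ∩ Y := by rw [hTp]
  simpa [hy] using h1

/-- The bound for complement-closed families of small VC dimension. -/
theorem vc_bound {r k : ℕ} (hk : 2 * k + 1 ≤ r) (hn0 : 0 < n) (hn : k = 0 ∨ 2 * (r - k) + 1 ≤ n)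
    {S : Set (Finset (Fin n))} (hc : ∀ T ∈ S, Tᶜ ∈ S) (hS : ∀ Y, Shatters S Y → Y.card ≤ r) :
    (centres S k).ncard ≤ 2 * ∑ i ∈ Finset.range (r - 2 * k), (n - 1).choose i := by
  classical
  obtain ⟨d, rfl⟩ : ∃ d, r = d + 1 := ⟨r - 1, by omega⟩
  have h1 := countK (S := fun T => T ∈ S) (d := d) (k := k) hn0 (by omega)
    (by rcases hn with h | h
        · exact Or.inl h
        · right; omega)
    (fun T hT => hc T hT)
    (fun Y hY => notShatter_of_not fun hs => by have := hS Y hs; omega)
  have h2 : d - 2 * k + 1 = d + 1 - 2 * k := by omega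
  rw [h2] at h1
  refine le_trans (le_of_eq ?_) h1
  rw [← Set.ncard_coe_finset]
  congr 1
  ext T
  simp [centres, Ball]

end Pool.Agent.Y834.RV
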