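import Pool.Agent.H800R3.OMAlt

/-!
The alternating family `alternating r n` satisfies the covector axioms, and it has rank `r`.
-/

set_option autoImplicit false

namespace Pool.Agent.Y834.RV

open Pool.Agent.H800R3.OM Pool.Agent.H800R3.Roud Filter Topology

variable {n r : ℕ}

/-- the value at the node `i` of the polynomial with coefficients `c` -/
noncomputable def ev (c : Fin r → ℝ) (i : Fin n) : ℝ := ∑ j : Fin r, c j * ((i : ℕ) : ℝ) ^ (j : ℕ)

lemma ev_comb (a b : ℝ) (c c' : Fin r → ℝ) (i : Fin n) :
    ev (fun j => a * c j + b * c' j) i = a * ev c i + b * ev c' i := by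
  unfold ev
  rw [Finset.mul_sum, Finset.mul_sum, ← Finset.sum_add_distrib]
  exact Finset.sum_congr rfl fun j _ => by ring

lemma mem_alt {X : SVec n} : X ∈ alternating r n ↔
    ∃ c : Fin r → ℝ, ∀ i, X i = SignType.sign (ev c i) := Iff.rfl

lemma alt_comp {X Y : SVec n} (hX : X ∈ alternating r n) (hY : Y ∈ alternating r n) :
    comp X Y ∈ alternating r n := by
  obtain ⟨c, hc⟩ := hX
  obtain ⟨c', hc'⟩ := hY
  have h1 : ∀ i : Fin n, ∀ᶠ ε : ℝ in 𝓝[>] 0, ev c i ≠ 0 →
      SignType.sign (ev c i + ε * ev c' i) = SignType.sign (ev c i) := by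
    intro i
    have hcont : Continuous fun ε : ℝ => ev c i + ε * ev c' i := by fun_prop
    have ht : Tendsto (fun ε : ℝ => ev c i + ε * ev c' i) (𝓝[>] 0) (𝓝 (ev c i)) := by
      have := hcont.tendsto 0
      rw [zero_mul, add_zero] at this
      exact this.mono_left nhdsWithin_le_nhds
    rcases lt_trichotomy (ev c i) 0 with h | h | h
    · filter_upwards [ht.eventually (gt_mem_nhds h)] with ε hε _
      rw [sign_neg hε, sign_neg h]
    · exact Eventually.of_forall fun ε hne => absurd h hne
    · filter_upwards [ht.eventually (lt_mem_nhds h)] with ε hε _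
      rw [sign_pos hε, sign_pos h]
  have h2 : ∀ᶠ ε : ℝ in 𝓝[>] 0, ∀ i : Fin n, ev c i ≠ 0 →
      SignType.sign (ev c i + ε * ev c' i) = SignType.sign (ev c i) := eventually_all.2 h1
  obtain ⟨ε, hε, hε0⟩ := (h2.and self_mem_nhdsWithin).exists
  have hε0' : (0 : ℝ) < ε := hε0
  refine ⟨fun j => 1 * c j + ε * c' j, fun i => ?_⟩
  show comp X Y i = SignType.sign (ev (fun j => 1 * c j + ε * c' j) i)
  rw [ev_comb, one_mul]
  unfold comp
  have hXi : X i = SignType.sign (ev c i) := hc i
  have hYi : Y i = SignType.sign (ev c' i) := hc' i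
  by_cases h0 : ev c i = 0
  · rw [if_pos (by rw [hXi, h0, sign_zero]), h0, zero_add, sign_mul, sign_pos hε0', one_mul, hYi]
  · rw [if_neg (by rw [hXi]; exact fun h => h0 (sign_eq_zero_iff.1 h)), hε i h0, hXi]

lemma sign_comb {a b x y : ℝ} (ha : 0 < a) (hb : 0 < b)
    (h : ¬ (SignType.sign x ≠ 0 ∧ SignType.sign x = - SignType.sign y)) :
    SignType.sign (a * x + b * y) = if SignType.sign x = 0 then SignType.sign y
      else SignType.sign x := by
  rcases lt_trichotomy x 0 with hx | hx | hx
  · rcases lt_trichotomy y 0 with hy | hy | hy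
    · have : a * x + b * y < 0 := by
        have := mul_neg_of_pos_of_neg ha hx
        have := mul_neg_of_pos_of_neg hb hy
        linarith
      rw [sign_neg this, sign_neg hx, if_neg (by decide)]
    · subst hy
      have : a * x + b * 0 < 0 := by
        have := mul_neg_of_pos_of_neg ha hx
        linarith
      rw [sign_neg this, sign_neg hx, if_neg (by decide)]
    · exfalso
      apply h
      rw [sign_neg hx, sign_pos hy]
      decide
  · subst hx
    rw [mul_zero, zero_add, sign_mul, sign_pos hb, one_mul, if_pos sign_zero]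
  · rcases lt_trichotomy y 0 with hy | hy | hy
    · exfalso
      apply h
      rw [sign_pos hx, sign_neg hy]
      decide
    · subst hy
      have : 0 < a * x + b * 0 := by
        have := mul_pos ha hx
        linarith
      rw [sign_pos this, sign_pos hx, if_neg (by decide)]
    · have : 0 < a * x + b * y := by
        have := mul_pos ha hx
        have := mul_pos hb hy
        linarith
      rw [sign_pos this, sign_pos hx, if_neg (by decide)]

/-- The alternating family satisfies the covector axioms of oriented matroids. -/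
theorem isOM_alternating (r n : ℕ) : IsOM (alternating r n) where
  zero_mem := ⟨fun _ => 0, fun i => by simp⟩
  neg_mem := by
    rintro X ⟨c, hc⟩
    refine ⟨fun j => (-1) * c j + 0 * c j, fun i => ?_⟩
    show - X i = SignType.sign (ev (fun j => (-1) * c j + 0 * c j) i)
    have hXi : X i = SignType.sign (ev c i) := hc i
    rw [ev_comb, zero_mul, add_zero, neg_one_mul, Left.sign_neg, hXi]
  comp_mem := fun X hX Y hY => alt_comp hX hY
  elim := by
    rintro X ⟨c, hc⟩ Y ⟨c', hc'⟩ e ⟨he1, he2⟩
    have hXi : ∀ i, X i = SignType.sign (ev c i) := hc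
    have hYi : ∀ i, Y i = SignType.sign (ev c' i) := hc'
    have hx : ev c e ≠ 0 := by
      intro h; apply he1; rw [hXi, h, sign_zero]
    have hy : ev c' e ≠ 0 := by
      intro h; apply he1; rw [he2, hYi, h, sign_zero, neg_zero]
    have ha : 0 < |ev c' e| := abs_pos.2 hy
    have hb : 0 < |ev c e| := abs_pos.2 hx
    refine ⟨fun i => SignType.sign (|ev c' e| * ev c i + |ev c e| * ev c' i), ?_, ?_, ?_⟩
    · refine ⟨fun j => |ev c' e| * c j + |ev c e| * c' j, fun i => ?_⟩
      show _ = SignType.sign (ev (fun j => |ev c' e| * c j + |ev c e| * c' j) i)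
      rw [ev_comb]
    · show SignType.sign (|ev c' e| * ev c e + |ev c e| * ev c' e) = 0
      rw [hXi, hYi] at he2
      rcases lt_or_gt_of_ne hx with h | h
      · rcases lt_or_gt_of_ne hy with h' | h'
        · rw [sign_neg h, sign_neg h'] at he2
          exact absurd he2 (by decide)
        · rw [abs_of_pos h', abs_of_neg h, sign_eq_zero_iff]; ring
      · rcases lt_or_gt_of_ne hy with h' | h'
        · rw [abs_of_neg h', abs_of_pos h, sign_eq_zero_iff]; ring
        · rw [sign_pos h, sign_pos h'] at he2
          exact absurd he2 (by decide)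
    · intro f hf
      show SignType.sign (|ev c' e| * ev c f + |ev c e| * ev c' f) = comp X Y f
      unfold Separates at hf
      rw [hXi, hYi] at hf
      rw [sign_comb ha hb hf]
      unfold comp
      rw [hXi, hYi]

/-- The chains of covectors of the alternating family have length at most `r`. -/
theorem chain_alternating {m : ℕ} (h : HasChain (alternating r n) m) : m ≤ r := by
  obtain ⟨Z, hZ, hch⟩ := h
  choose c hc using fun i => (hZ i)
  have hZe : ∀ i e, Z i e = SignType.sign (ev (c i) e) := hc
  -- conformality along the chain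
  have hconf : ∀ i : ℕ, ∀ j : ℕ, ∀ hij : i ≤ j, ∀ hj : j < m + 1, ∀ e,
      Z ⟨j, hj⟩ e = 0 → Z ⟨i, lt_of_le_of_lt hij hj⟩ e = 0 := by
    intro i j hij
    induction j, hij using Nat.le_induction with
    | base => intro hj e h; exact h
    | succ j hij ih =>
      intro hj e h
      have h1 := (hch ⟨j, by omega⟩).1 e
      have h2 : Z (Fin.castSucc ⟨j, by omega⟩) e = 0 := by
        rcases h1 with h1 | h1
        · exact h1
        · rw [h1]; exact h
      exact ih (by omega) e h2
  have hex : ∀ i : Fin m, ∃ e : Fin n, Z i.castSucc e = 0 ∧ Z i.succ e ≠ 0 := by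
    intro i
    obtain ⟨h1, h2⟩ := hch i
    by_contra hcon
    push Not at hcon
    apply h2
    funext e
    rcases h1 e with h | h
    · rw [h, hcon e h]
    · exact h
  choose e he1 he2 using hex
  have hli : LinearIndependent ℝ (fun i : Fin m => c i.succ) := by
    rw [Fintype.linearIndependent_iff]
    intro g hg
    by_contra hcon
    push Not at hcon
    -- the largest index with a nonzero coefficient
    obtain ⟨i, hi, hmax⟩ := (Finset.univ.filter fun i : Fin m => g i ≠ 0).exists_max_image
      (fun i => (i : ℕ)) (by
        obtain ⟨i, hi⟩ := hcon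
        exact ⟨i, by simpa using hi⟩)
    have hgi : g i ≠ 0 := (Finset.mem_filter.1 hi).2
    have hsum : ∑ j : Fin m, g j * ev (c j.succ) (e i) = 0 := by
      have h1 : ev (∑ j : Fin m, g j • c j.succ) (e i) = 0 := by
        rw [hg]; simp [ev]
      have h2 : ev (∑ j : Fin m, g j • c j.succ) (e i) = ∑ j : Fin m, g j * ev (c j.succ) (e i) := by
        unfold ev
        simp only [Finset.sum_apply, Pi.smul_apply, smul_eq_mul, Finset.sum_mul]
        rw [Finset.sum_comm]
        refine Finset.sum_congr rfl fun j _ => ?_
        rw [Finset.mul_sum]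
        exact Finset.sum_congr rfl fun x _ => by ring
      rw [← h2, h1]
    rw [Finset.sum_eq_single i] at hsum
    · rcases mul_eq_zero.1 hsum with h | h
      · exact hgi h
      · apply he2 i
        rw [hZe, h, sign_zero]
    · intro j _ hji
      by_cases hgj : g j = 0
      · rw [hgj, zero_mul]
      · have hle : (j : ℕ) ≤ i := hmax j (by simpa using hgj)
        have hlt : (j : ℕ) < i := lt_of_le_of_ne hle (fun h => hji (Fin.ext h))
        have h0 : Z j.succ (e i) = 0 := by
          have := hconf (j + 1) i (by omega) (by omega) (e i) (he1 i)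
          exact this
        rw [hZe] at h0
        rw [sign_eq_zero_iff.1 h0, mul_zero]
    · intro h; exact absurd (Finset.mem_univ i) h
  have := hli.fintype_card_le_finrank
  simpa using this

open Polynomial in
/-- The alternating family on `n ≥ r` elements has rank `r`. -/
theorem hasRank_alternating (hrn : r ≤ n) : HasRank (alternating r n) r := by
  refine ⟨?_, fun m hm => chain_alternating hm⟩
  refine ⟨fun j => fun e => if (j : ℕ) = 0 then 0 else if (e : ℕ) + (j : ℕ) < r then 0 else 1, ?_, ?_⟩
  · intro j
    by_cases hj : (j : ℕ) = 0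
    · refine ⟨fun _ => 0, fun i => ?_⟩
      simp [hj]
    · let P : ℝ[X] := ∏ i ∈ Finset.range (r - j), (X - C ((i : ℕ) : ℝ))
      have hjr : (j : ℕ) ≤ r := by have := j.2; omega
      have hdeg : P.natDegree < r := by
        have h1 : P.natDegree = r - j := by
          simp only [P]
          rw [Polynomial.natDegree_prod_of_monic _ _ (fun i _ => monic_X_sub_C _),
            Finset.sum_congr rfl (fun i _ => natDegree_X_sub_C _), Finset.sum_const,
            Finset.card_range, smul_eq_mul, mul_one]
        omega
      refine ⟨fun t => P.coeff t, fun i => ?_⟩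
      have hev : ∑ t : Fin r, P.coeff (t : ℕ) * ((i : ℕ) : ℝ) ^ (t : ℕ) = P.eval ((i : ℕ) : ℝ) := by
        rw [Polynomial.eval_eq_sum_range' hdeg, Finset.sum_range]
      simp only
      rw [if_neg hj, hev]
      simp only [P, Polynomial.eval_prod, Polynomial.eval_sub, Polynomial.eval_X,
        Polynomial.eval_C]
      by_cases hi : (i : ℕ) + (j : ℕ) < r
      · rw [if_pos hi]
        symm
        rw [sign_eq_zero_iff]
        exact Finset.prod_eq_zero (i := (i : ℕ)) (Finset.mem_range.2 (by omega)) (by simp)
      · rw [if_neg hi]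
        symm
        rw [sign_eq_one_iff]
        refine Finset.prod_pos fun t ht => ?_
        have ht' := Finset.mem_range.1 ht
        have : (t : ℝ) < ((i : ℕ) : ℝ) := by exact_mod_cast (by omega : t < (i : ℕ))
        linarith
  · intro j
    have hj := j.2
    constructor
    · intro e
      simp only [Fin.val_castSucc, Fin.val_succ]
      by_cases h0 : (j : ℕ) = 0
      · left; simp [h0]
      · by_cases h1 : (e : ℕ) + (j : ℕ) < r
        · left; simp [h1]
        · right
          rw [if_neg h0, if_neg h1, if_neg (by omega), if_neg (by omega)]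
    · intro heq
      have h1 := congrFun heq ⟨r - (j : ℕ) - 1, by omega⟩
      simp only [Fin.val_castSucc, Fin.val_succ] at h1
      rw [if_neg (by omega : ¬ ((j : ℕ) + 1 = 0)),
        if_neg (by omega : ¬ (r - (j : ℕ) - 1 + ((j : ℕ) + 1) < r))] at h1
      by_cases h0 : (j : ℕ) = 0
      · rw [if_pos h0] at h1
        exact absurd h1 (by decide)
      · rw [if_neg h0, if_pos (by omega)] at h1
        exact absurd h1 (by decide)

end Pool.Agent.Y834.RV
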